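import Pool.Agent.U536.CF.F
import Pool.Agent.Results.MP_fd8838_nt.MultiplicativeValues
import Pool.Agent.U536.CF.Tail

/-!
# Möller's maps near integers with a large common factor with a value of a multiplicative function

Let `f` be a positive multiplicative function of at most polynomial growth such that `f p ≤ M p` for the large primes `p`,
with different values at different large primes; for example Euler's function or the sum of the divisors. Let `G` have
steps bounded below by a positive constant and growth at most `v^e`, for example `α v^e`. Let `b < 1` and `0 ≤ c < 2 b -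
1`. For all `m ≤ N` but `N exp (-(log N)^c)`, for EVERY integer `w ≥ exp ((log N)^b)` with `gcd(w, f(m)) ≥ w^ρ`, (1) NO
element `x` of the exceptional set `E(d, q, R)` satisfies `|x - G w| ≤ w ^ κ`; (2) for EVERY integer `x ≠ 0` with `||x| -
G w| ≤ w ^ κ` some `T^k(x)` is at most `|x| ^ δ` in absolute value, and if the orbit of `x` stays positive then some
`T^k(x)` is an element `≤ |x| ^ δ` of the exceptional set, if `d, q ≥ 2` are coprime, `q ≤ d ^ (d / (d - 1))`, `R` is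
admissible, `κ ≥ 0`, `ρ ≤ 1`, and (1) `e (1 - C) + κ < ρ`; (2) `0 < δ ≤ 1` and `e (1 - C δ) + κ < ρ`; here `0 < C < 1`
depends only on `d` and `q`, and `C > 1 - h(d, q)` if `q > d`, where `h(d, q)` is the `d`-ary entropy of `log d / log q`
in base `d`. The integers `w` include all large divisors of `f(m)` and their multiples by small integers; for Euler's
function, the orders of the elements of the group of units modulo `m`.

Proof. Write `m = k u` with `u` squarefree and composed of primes larger than `N^(1/J)`, `J = (log N)^a`, and `k ≤ exp (4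
(log N)^a)`; this is possible for all `m ≤ N` but very few. If `v ∣ f(k) f(u)`, then `v = g v'` with `g ∣ f(k)` and `v' ∣
∏ f(p)`, and the number of such `u ≤ N / k` is at most `N / (k v')` times `(log N)^O(J)` times the number `τ_J(v')` of the
ordered factorizations of `v'` into `J` factors. The inequality `τ_J^q ≤ τ_K` for `K ≥ J^q` and Hölder's inequality bound
the sum over the sparse set of the exceptional `v`. The file `MultiplicativeValues` of the starting library treats the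
integers `w = f(m)`, with `N / (log N)^U` exceptions.
-/

set_option autoImplicit false

namespace Pool.Agent.Results.MP_fd8838_nt.CommonFactors

open Pool.Agent.N733.TG (LM Expanding lm_totient lm_sigma expanding_pow)
open Pool.Agent.U536.CF (Common common_windows common_tail common_of_dvd common_order)
open Pool.Agent.Results.MP_fd8838_nt.MultiplicativeValues (T E Captured tail orbit_ge captured)

/-- **Möller's maps near integers with a large common factor with a value of a multiplicative function.** Let `f` be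
multiplicative and positive, of at most polynomial growth, with `f p ≤ M p` at the large primes, and injective there. Let
`G` have steps `≥ a > 0` and growth at most `v^e`. Let `b < 1` and `0 ≤ c < 2 b - 1`, `d, q ≥ 2` are coprime, `q ≤ d ^ (d
/ (d - 1))`, `R` is admissible, `κ ≥ 0`, `ρ ≤ 1`, and (1) `e (1 - C) + κ < ρ`; (2) `0 < δ ≤ 1` and `e (1 - C δ) + κ < ρ`;
here `0 < C < 1` depends only on `d` and `q`, and `C > 1 - h(d, q)` if `q > d`, where `h(d, q)` is the `d`-ary entropy of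
`log d / log q` in base `d`. For all large `N`, for all `m ≤ N` but `N exp (-(log N)^c)`, for EVERY integer `w ≥ exp ((log
N)^b)` with `gcd(w, f(m)) ≥ w^ρ`, (1) NO element `x` of the exceptional set `E(d, q, R)` satisfies `|x - G w| ≤ w ^ κ`;
(2) for EVERY integer `x ≠ 0` with `||x| - G w| ≤ w ^ κ` some `T^k(x)` is at most `|x| ^ δ` in absolute value, and if the
orbit of `x` stays positive then some `T^k(x)` is an element `≤ |x| ^ δ` of the exceptional set. All divisors `w ≥ exp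
((log N)^b)` of `f(m)` are such integers `w`, and for Euler's function the orders `≥ exp ((log N)^b)` of the units modulo
`m`. Euler's function and the sum of the divisors are examples of `f`, and `α v^e` with `α > 0`, `e ≥ 1` is an example of
`G`. -/
theorem result :
    (∀ d q : ℕ, 2 ≤ d → 2 ≤ q → Nat.Coprime q d → (q : ℝ) ≤ (d : ℝ) ^ ((d : ℝ) / ((d : ℝ) - 1)) →
      ∃ C : ℝ, 0 < C ∧ C < 1 ∧ (d < q → 1 - Real.qaryEntropy d (Real.log d / Real.log q) / Real.log d < C) ∧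
      ∀ r : ℕ → ℤ, (∀ j : ℕ, 1 ≤ j → j < d → r j ≡ q * j [ZMOD d]) →
      ∀ f : ℕ → ℕ, LM f → ∀ (G : ℕ → ℝ) (e : ℝ), Expanding G e → ∀ κ ρ b c : ℝ, 0 ≤ κ → ρ ≤ 1 → b < 1 → 0 ≤ c →
      c < 2 * b - 1 →
        (e * (1 - C) + κ < ρ → ∃ N₀ : ℕ, ∀ N : ℕ, N₀ ≤ N →
          ({m : ℕ | 1 ≤ m ∧ m ≤ N ∧ ∃ w : ℕ, Common f b ρ N m w ∧
            ∃ x ∈ E d q r, |(x : ℝ) - G w| ≤ (w : ℝ) ^ κ}.ncard : ℝ) ≤ N * Real.exp (-(Real.log N ^ c))) ∧
        ∀ δ : ℝ, 0 < δ → δ ≤ 1 → e * (1 - C * δ) + κ < ρ → ∃ N₀ : ℕ, ∀ N : ℕ, N₀ ≤ N →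
          ({m : ℕ | 1 ≤ m ∧ m ≤ N ∧ ¬ ∀ w : ℕ, Common f b ρ N m w → ∀ x : ℤ, x ≠ 0 → |(|x| : ℝ) - G w| ≤ (w : ℝ) ^ κ →
            Captured d q r (|(x : ℝ)| ^ δ) x}.ncard : ℝ) ≤ N * Real.exp (-(Real.log N ^ c))) ∧
    (LM Nat.totient ∧ LM (fun m => ∑ d ∈ m.divisors, d)) ∧
    (∀ α d : ℝ, 0 < α → 1 ≤ d → Expanding (fun v => α * (v : ℝ) ^ d) d) ∧
    (∀ (f : ℕ → ℕ) (b ρ : ℝ) (N m w : ℕ), ρ ≤ 1 → Real.exp (Real.log N ^ b) ≤ (w : ℝ) → w ∣ f m → Common f b ρ N m w) ∧
    ∀ (b ρ : ℝ) (N m : ℕ), ρ ≤ 1 → ∀ x : (ZMod m)ˣ, Real.exp (Real.log N ^ b) ≤ (orderOf x : ℝ) →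
      Common Nat.totient b ρ N m (orderOf x) := by
  refine ⟨?_, ⟨lm_totient, lm_sigma⟩, fun α d hα hd => expanding_pow hα hd, fun f b ρ N m w hρ hw hd => common_of_dvd hρ hw hd,
    fun b ρ N m hρ x hx => common_order hρ x hx⟩
  intro d m hd hm hc hle
  obtain ⟨c, hc0, hc1, hch, htail⟩ := tail d m hd hm hc hle
  refine ⟨c, hc0, hc1, hch, fun r hr f hf G e hG κ ρ b c' hκ hρ hb hc' hcb => ?_⟩
  obtain ⟨C, hC, hcount⟩ := htail r hr
  have he := hG.one_le
  have hmono : ∀ (x : ℤ) (y y' : ℝ), y ≤ y' → (∀ k : ℕ, y' < |(((T d m r)^[k] x : ℤ) : ℝ)|) →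
      ∀ k : ℕ, y < |(((T d m r)^[k] x : ℤ) : ℝ)| := fun x y y' hy h k => lt_of_le_of_lt hy (h k)
  refine ⟨fun h1 => ?_, fun δ hδ0 hδ1 h1 => ?_⟩
  · -- an exponent `δ < 1`
    obtain ⟨δ, hδ⟩ : ∃ δ, δ = 1 - (ρ - (e * (1 - c) + κ)) / (2 * e) := ⟨_, rfl⟩
    have he0 : 0 < e := by linarith
    have hcon : 0 ≤ e * (1 - c) := by
      apply mul_nonneg he0.le; linarith
    have hδ1 : δ < 1 := by
      have : 0 < (ρ - (e * (1 - c) + κ)) / (2 * e) := by
        apply div_pos (by linarith) (by linarith)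
      rw [hδ]; linarith
    have hδ0 : 0 < δ := by
      have : (ρ - (e * (1 - c) + κ)) / (2 * e) ≤ 1 / 2 := by
        rw [div_le_iff₀ (by linarith)]
        linarith
      rw [hδ]; linarith
    have hcδ : c * δ < 1 := by nlinarith
    have h2 : e * (1 - c * δ) + κ < ρ := by
      have e1 : e * (1 - δ) = (ρ - (e * (1 - c) + κ)) / 2 := by
        rw [hδ]
        field_simp
        ring
      have e2 : e * (1 - c * δ) = e * (1 - c) + c * (e * (1 - δ)) := by ring
      have e3 : c * (e * (1 - δ)) ≤ 1 * (e * (1 - δ)) := by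
        apply mul_le_mul_of_nonneg_right hc1.le
        apply mul_nonneg he0.le; linarith
      rw [e2]
      linarith
    obtain ⟨K, hK, hcountE⟩ := Pool.Agent.N60.MV.tail_pow (P := fun x y => ∀ k : ℕ, y < |(((T d m r)^[k] x : ℤ) : ℝ)|)
      hmono hC hc0 hcount hδ0 hcδ
    obtain ⟨B, hB⟩ : ∃ B : ℕ, ∀ j : ℕ, 1 ≤ j → j < d → r j < B := by
      refine ⟨∑ j ∈ Finset.range d, (r j).natAbs + 1, fun j hj1 hj2 => ?_⟩
      have h3 : (r j).natAbs ≤ ∑ j ∈ Finset.range d, (r j).natAbs :=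
        Finset.single_le_sum (f := fun j => (r j).natAbs) (fun _ _ => Nat.zero_le _) (Finset.mem_range.2 hj2)
      omega
    refine common_windows (E d m r) (fun x : ℤ => (x : ℝ)) hf hG (s := 1 - c * δ) (κ := κ) (by linarith) hκ h2
      hρ hb hc' hcb (fun ε hε => ⟨K + (B + 2), fun X hX => ?_⟩)
    have hsub : {t : ℤ | t ∈ E d m r ∧ (t : ℝ) ≤ X} ⊆
        {x : ℤ | |(x : ℝ)| ≤ X ∧ (x ≠ 0 ∧ ∀ k : ℕ, |(x : ℝ)| ^ δ < |(((T d m r)^[k] x : ℤ) : ℝ)|)} ∪
        ((Finset.Icc (0 : ℤ) (B + 1) : Finset ℤ) : Set ℤ) := by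
      rintro x ⟨hxE, hxX⟩
      have hx0 : 0 < x := hxE.1
      have hx0' : (0 : ℝ) < x := by exact_mod_cast hx0
      rcases le_or_gt x (B + 1) with h | h
      · right
        rw [Finset.mem_coe, Finset.mem_Icc]
        exact ⟨hx0.le, h⟩
      · left
        refine ⟨by rw [abs_of_pos hx0']; exact hxX, hx0.ne', fun k => ?_⟩
        obtain ⟨-, h4⟩ := orbit_ge hd (by omega) hr hxE (fun j hj1 hj2 => by
          have := hB j hj1 hj2
          omega) k
        have h5 : (x : ℝ) ≤ (((T d m r)^[k] x : ℤ) : ℝ) := by exact_mod_cast h4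
        have h6 : (1 : ℝ) < x := by
          have : (1 : ℤ) < x := by omega
          exact_mod_cast this
        rw [abs_of_pos hx0']
        calc (x : ℝ) ^ δ < (x : ℝ) ^ (1 : ℝ) := Real.rpow_lt_rpow_of_exponent_lt h6 hδ1
          _ = x := Real.rpow_one _
          _ ≤ _ := h5
          _ ≤ _ := le_abs_self _
    have hfin := (Pool.Agent.N60.MV.fin_abs (fun x : ℤ => x ≠ 0 ∧ ∀ k : ℕ, |(x : ℝ)| ^ δ <
      |(((T d m r)^[k] x : ℤ) : ℝ)|) X).union (Finset.finite_toSet (Finset.Icc (0 : ℤ) (B + 1)))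
    refine ⟨hfin.subset hsub, ?_⟩
    have h3 := (Set.ncard_le_ncard hsub hfin).trans (Set.ncard_union_le _ _)
    rw [Set.ncard_coe_finset, Int.card_Icc] at h3
    have h4 : ((({t : ℤ | t ∈ E d m r ∧ (t : ℝ) ≤ X}.ncard : ℕ)) : ℝ) ≤
        ({x : ℤ | |(x : ℝ)| ≤ X ∧ (x ≠ 0 ∧ ∀ k : ℕ, |(x : ℝ)| ^ δ < |(((T d m r)^[k] x : ℤ) : ℝ)|)}.ncard : ℝ) +
        (B + 2) := by
      have h5 : ((B : ℤ) + 1 + 1 - 0).toNat = B + 2 := by omega
      rw [h5] at h3
      exact_mod_cast h3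
    have h5 := hcountE X hX
    have h6 : (1 : ℝ) ≤ X ^ (1 - c * δ) := Real.one_le_rpow hX (by linarith)
    have h7 : X ^ (1 - c * δ) ≤ X ^ (1 - c * δ + ε) := Real.rpow_le_rpow_of_exponent_le hX (by linarith)
    calc ((({t : ℤ | t ∈ E d m r ∧ (t : ℝ) ≤ X}.ncard : ℕ)) : ℝ) ≤ K * X ^ (1 - c * δ) + (B + 2) * 1 := by linarith
      _ ≤ K * X ^ (1 - c * δ) + (B + 2) * X ^ (1 - c * δ) := by
        have : (0 : ℝ) ≤ B + 2 := by positivity
        have := mul_le_mul_of_nonneg_left h6 this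
        linarith
      _ = (K + (B + 2)) * X ^ (1 - c * δ) := by ring
      _ ≤ _ := mul_le_mul_of_nonneg_left h7 (by positivity)
  · obtain ⟨N₀, hN₀⟩ := common_tail (P := fun x y => ∀ k : ℕ, y < |(((T d m r)^[k] x : ℤ) : ℝ)|)
      hmono hC hc0 hcount hδ0 (by nlinarith) hf hG hκ h1 hρ hb hc' hcb
    refine ⟨N₀, fun N hN => le_trans ?_ (hN₀ N hN)⟩
    have hfin : {u : ℕ | 1 ≤ u ∧ u ≤ N ∧ ¬ ∀ w : ℕ, Common f b ρ N u w → ∀ x : ℤ, x ≠ 0 →
        |(|x| : ℝ) - G w| ≤ (w : ℝ) ^ κ →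
        ¬ ∀ k : ℕ, |(x : ℝ)| ^ δ < |(((T d m r)^[k] x : ℤ) : ℝ)|}.Finite := by
      apply (Set.finite_Icc 1 N).subset
      intro u hu
      exact ⟨hu.1, hu.2.1⟩
    have hsub : {u : ℕ | 1 ≤ u ∧ u ≤ N ∧ ¬ ∀ w : ℕ, Common f b ρ N u w → ∀ x : ℤ, x ≠ 0 →
        |(|x| : ℝ) - G w| ≤ (w : ℝ) ^ κ → Captured d m r (|(x : ℝ)| ^ δ) x} ⊆
        {u : ℕ | 1 ≤ u ∧ u ≤ N ∧ ¬ ∀ w : ℕ, Common f b ρ N u w → ∀ x : ℤ, x ≠ 0 →
        |(|x| : ℝ) - G w| ≤ (w : ℝ) ^ κ →
        ¬ ∀ k : ℕ, |(x : ℝ)| ^ δ < |(((T d m r)^[k] x : ℤ) : ℝ)|} := by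
      rintro u ⟨a1, a2, a3⟩
      exact ⟨a1, a2, fun h => a3 fun w hw x hx0 hx => captured hd (h w hw x hx0 hx)⟩
    exact_mod_cast Set.ncard_le_ncard hsub hfin

end Pool.Agent.Results.MP_fd8838_nt.CommonFactors
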