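import Pool.Agent.U491.LR.Mo
import Pool.Agent.U491.LR.P

set_option autoImplicit false

/-!
# Linear recurrences and the exceptional sets of Möller's maps

Let `gcd(m, d) = 1`, `2 ≤ m ≤ d^(d/(d-1))`, and let `u` be a linear recurrence with last coefficient prime to
`d` which is constant on no arithmetic progression (the Fibonacci numbers, for example). For every `X`, at
most `K N^(1 - δ)` of the numbers `u(X+1), ..., u(X+N)` are in the exceptional set `E(d, m, R)`. The same is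
true for all smooth sequences (the `k`-th differences with some step `M` are divisible by `d^(2k)`), and along
spread sequences of indices, for example for the `u(p)`, `p` prime. If `u` grows faster than the powers of
`n`, then the `H`-orbit of almost all the numbers `u(n)` of a window of length `N` has a positive term
`≤ u(n) N^(-κ + ε)`, `κ = 1 - (d - 1) / d * log_d m`.

Method. Large deviations for the residues modulo `d` of the first terms of the `T`-orbit, and the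
distribution of smooth sequences modulo the powers of `d`: they are `p`-adically analytic on residue classes
for every `p ∣ d`, and their derivatives have few approximate zeros.
-/

namespace Pool.Agent.Results.MP_fd8838_nt.LinearRecurrenceExceptional

open Pool.Agent.Y927.GP Filter

/-- The generalised Hasse-Syracuse map `H(x) = (m x - r_j) / d ^ a(x)`, where `j` is the residue of
`x` modulo `d` and `d ^ a(x)` is the largest power of `d` dividing `m x - r_j`. -/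
noncomputable def H (d m : ℕ) (r : ℤ → ℤ) (x : ℤ) : ℤ :=
  (m * x - r (x % d)) / (d : ℤ) ^ multiplicity (d : ℤ) (m * x - r (x % d))

/-- The iterate `H^k(y)` is defined: the orbit does not stop before (it stops at `z` if
`m z ≤ r_j`, where `z ≡ j` modulo `d`). -/
def Defined (d m : ℕ) (r : ℤ → ℤ) (y : ℤ) (k : ℕ) : Prop :=
  ∀ i < k, r ((H d m r)^[i] y % d) < m * (H d m r)^[i] y

/-- The exceptional set `E(d, m, R)`: the positive integers `n` not divisible by `d` such that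
`H^k(n) ≥ n` for all `k ≥ 1` for which `H^k(n)` is defined. -/
def E (d m : ℕ) (r : ℤ → ℤ) : Set ℤ :=
  {n | 0 < n ∧ ¬ (d : ℤ) ∣ n ∧ ∀ k, 1 ≤ k → Defined d m r n k → n ≤ (H d m r)^[k] n}

/-- `κ = 1 - (d - 1) / d * log m / log d` -/
noncomputable def kappa (d m : ℕ) : ℝ := 1 - ((d : ℝ) - 1) / d * (Real.log m / Real.log d)

/-- The `H`-orbit of `y` has a term `0 < H^k(y) ≤ Q y`. -/
def Descends (d m : ℕ) (r : ℤ → ℤ) (Q : ℝ) (y : ℤ) : Prop :=
  ∃ k : ℕ, Defined d m r y k ∧ 0 < (H d m r)^[k] y ∧ (((H d m r)^[k] y : ℤ) : ℝ) ≤ Q * y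

/-- The linear recurrence `u (n + k) = c 0 u (n) + ... + c (k - 1) u (n + k - 1)` with `c 0` prime to `d`. -/
def CoprimeRec (d : ℕ) (u : ℕ → ℤ) : Prop :=
  ∃ (k : ℕ) (c : ℕ → ℤ), 1 ≤ k ∧ IsCoprime (c 0) (d : ℤ) ∧
    ∀ n, u (n + k) = ∑ i ∈ Finset.range k, c i * u (n + i)

/-- `u` is smooth: for some step `M ≥ 1`, `d ^ (2 k)` divides all the `k`-th differences of `u` with step
`M`, for every `k`. -/
def Smooth (d : ℕ) (u : ℕ → ℤ) : Prop :=
  ∃ M : ℕ, 1 ≤ M ∧ ∀ k n : ℕ,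
    (d : ℤ) ^ (2 * k) ∣ ∑ j ∈ Finset.range (k + 1), (-1) ^ (k - j) * (k.choose j : ℤ) * u (n + j * M)

/-- `u` is constant on no arithmetic progression. -/
def NoConst (u : ℕ → ℤ) : Prop := ∀ a q : ℕ, 1 ≤ q → ∃ m, u (a + q * m) ≠ u a

/-- `|u n|` grows faster than every power of `n`. -/
def Fast (u : ℕ → ℤ) : Prop := ∀ A : ℝ, ∀ᶠ n : ℕ in atTop, (n : ℝ) ^ A ≤ |(u n : ℝ)|

/-- The family of sequences of integers `x i` is spread modulo the powers of `d` up to the exponent `c`: for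
every `η > 0` there are `δ, K > 0` such that, for all `i`, `N ≥ 1` and `d ^ T ≤ N ^ c`, any
`exp (-η T) d ^ T` classes modulo `d ^ T` contain together at most `K exp (-δ T) N` of the integers `x i n`,
`1 ≤ n ≤ N`. -/
def Spread (d : ℕ) (c : ℝ) {ι : Type} (x : ι → ℕ → ℤ) : Prop :=
  ∀ η : ℝ, 0 < η → ∃ δ K : ℝ, 0 < δ ∧ 0 < K ∧ ∀ (i : ι) (N T : ℕ), 1 ≤ N → (d : ℝ) ^ T ≤ (N : ℝ) ^ c →
    ∀ A : Finset ℤ, (A.card : ℝ) ≤ Real.exp (-(η * T)) * (d : ℝ) ^ T →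
      (({n | 1 ≤ n ∧ n ≤ N ∧ ∃ a ∈ A, x i n ≡ a [ZMOD (d : ℤ) ^ T]} : Set ℕ).ncard : ℝ) ≤
        K * Real.exp (-(δ * T)) * N

theorem H_eq (d m : ℕ) (r : ℤ → ℤ) : H d m r = Mo.H d m r := rfl

theorem E_eq (d m : ℕ) (r : ℤ → ℤ) : E d m r = Mo.E d m r := rfl

theorem kappa_eq (d m : ℕ) : kappa d m = Mo.kap d m := rfl

theorem desc_iff (d m : ℕ) (r : ℤ → ℤ) (Q : ℝ) (y : ℤ) : Descends d m r Q y ↔
    ∃ k : ℕ, Mo.Def d m r y k ∧ 0 < (Mo.H d m r)^[k] y ∧ (((Mo.H d m r)^[k] y : ℤ) : ℝ) ≤ Q * y := Iff.rfl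

theorem ncard_le {N : ℕ} {P : ℕ → Prop} {K : ℝ}
    (h : ∀ A : Finset ℕ, A ⊆ Finset.Icc 1 N → (∀ n ∈ A, P n) → (A.card : ℝ) ≤ K) :
    (({n | 1 ≤ n ∧ n ≤ N ∧ P n} : Set ℕ).ncard : ℝ) ≤ K := by
  classical
  rw [Pool.Agent.U491.LR.ncard_eq]
  apply h _ (Finset.filter_subset _ _)
  intro n hn
  exact (Finset.mem_filter.1 hn).2

/-- **Main theorem.** Let `gcd(m, d) = 1`, `2 ≤ m ≤ d^(d/(d-1))`, `R` admissible and `κ = kappa d m`.
(1) Let `u` be smooth and constant on no arithmetic progression. There are `δ, K > 0` such that for all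
`X ≥ 0` and `N ≥ 1` at most `K N^(1 - δ)` of the integers `n` in `(X, X + N]` have `u n ∈ E(d, m, R)`; and the
same is true for the numbers `u (f i n)`, `1 ≤ n ≤ N`, for every family `f i` of sequences of indices which is
spread up to an exponent `c > 0`.
(2) Let the family `x` be spread up to the exponent `c > 0`. There are `δ, K > 0` such that for all `i` and
`N ≥ 1` at most `K N^(1 - δ)` of the `n ≤ N` have `x i n ∈ E(d, m, R)`; and there are `c', δ, K > 0` such that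
for all `i` and `N ≥ 1`, for all but `K N^(1 - δ)` of the `n ≤ N` for which `x i n` is positive and not divisible
by `d`, the `H`-orbit of `x i n` has a term `0 < H^k(x i n) ≤ x i n N^(-c')`.
(3) In (2), for every `ε > 0`, for all but `K N^(1 - δ)` of the `n ≤ N` for which `x i n ≥ N^(c (κ + ε))` is not
divisible by `d` the `H`-orbit of `x i n` has a term `0 < H^k(x i n) ≤ x i n N^(-c (κ - ε))`.
(4) Let `u` be smooth and grow faster than every power of `n`. For every `ε > 0` there are `δ, K > 0` such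
that for all `X ≥ 0` and `N ≥ 1`, for all but `K N^(1 - δ)` of the `n` in `(X, X + N]` for which `u n` is positive
and not divisible by `d`, the `H`-orbit of `u n` has a term `0 < H^k(u n) ≤ u n N^(-κ + ε)`.
(5) Linear recurrences with last coefficient prime to `d`, Newton series `∑ c_j n (n - 1) ... (n - j + 1)` and
sums and products of smooth sequences are smooth. The Fibonacci numbers are such a recurrence and grow
faster than every power, and the primes are spread up to the exponent `1 / 2`. -/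
theorem result (d m : ℕ) (hd : 2 ≤ d) (hm : 2 ≤ m) (hc : Nat.Coprime m d)
    (hle : (m : ℝ) ≤ (d : ℝ) ^ ((d : ℝ) / ((d : ℝ) - 1))) (r : ℤ → ℤ)
    (hr : ∀ j : ℤ, 1 ≤ j → j < d → r j ≡ m * j [ZMOD d]) :
    (∀ u : ℕ → ℤ, Smooth d u → NoConst u →
      (∃ δ K : ℝ, 0 < δ ∧ 0 < K ∧ ∀ X N : ℕ, 1 ≤ N →
        (({n | 1 ≤ n ∧ n ≤ N ∧ u (X + n) ∈ E d m r} : Set ℕ).ncard : ℝ) ≤ K * (N : ℝ) ^ (1 - δ)) ∧
      (∀ (ι : Type) (f : ι → ℕ → ℕ) (c : ℝ), 0 < c → Spread d c (fun i n => (f i n : ℤ)) →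
        ∃ δ K : ℝ, 0 < δ ∧ 0 < K ∧ ∀ (i : ι) (N : ℕ), 1 ≤ N →
          (({n | 1 ≤ n ∧ n ≤ N ∧ u (f i n) ∈ E d m r} : Set ℕ).ncard : ℝ) ≤ K * (N : ℝ) ^ (1 - δ))) ∧
    (∀ (ι : Type) (x : ι → ℕ → ℤ) (c : ℝ), 0 < c → Spread d c x →
      (∃ δ K : ℝ, 0 < δ ∧ 0 < K ∧ ∀ (i : ι) (N : ℕ), 1 ≤ N →
        (({n | 1 ≤ n ∧ n ≤ N ∧ x i n ∈ E d m r} : Set ℕ).ncard : ℝ) ≤ K * (N : ℝ) ^ (1 - δ)) ∧
      (∃ c' δ K : ℝ, 0 < c' ∧ 0 < δ ∧ 0 < K ∧ ∀ (i : ι) (N : ℕ), 1 ≤ N →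
        (({n | 1 ≤ n ∧ n ≤ N ∧ 0 < x i n ∧ ¬ (d : ℤ) ∣ x i n ∧
          ¬ Descends d m r ((N : ℝ) ^ (-c')) (x i n)} : Set ℕ).ncard : ℝ) ≤ K * (N : ℝ) ^ (1 - δ)) ∧
      (∀ ε : ℝ, 0 < ε → ∃ δ K : ℝ, 0 < δ ∧ 0 < K ∧ ∀ (i : ι) (N : ℕ), 1 ≤ N →
        (({n | 1 ≤ n ∧ n ≤ N ∧ 0 < x i n ∧ ¬ (d : ℤ) ∣ x i n ∧
          (N : ℝ) ^ (c * (kappa d m + ε)) ≤ (x i n : ℝ) ∧
          ¬ Descends d m r ((N : ℝ) ^ (c * (ε - kappa d m))) (x i n)} : Set ℕ).ncard : ℝ) ≤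
            K * (N : ℝ) ^ (1 - δ))) ∧
    (∀ u : ℕ → ℤ, Smooth d u → Fast u → ∀ ε : ℝ, 0 < ε → ∃ δ K : ℝ, 0 < δ ∧ 0 < K ∧
      ∀ X N : ℕ, 1 ≤ N → (({n | 1 ≤ n ∧ n ≤ N ∧ 0 < u (X + n) ∧ ¬ (d : ℤ) ∣ u (X + n) ∧
        ¬ Descends d m r ((N : ℝ) ^ (ε - kappa d m)) (u (X + n))} : Set ℕ).ncard : ℝ) ≤
          K * (N : ℝ) ^ (1 - δ)) ∧
    ((∀ u : ℕ → ℤ, CoprimeRec d u → Smooth d u) ∧
      (∀ c : ℕ → ℤ, Smooth d (fun n => ∑ j ∈ Finset.range (n + 1), c j * (n.descFactorial j : ℤ))) ∧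
      (∀ u v : ℕ → ℤ, Smooth d u → Smooth d v →
        Smooth d (fun n => u n + v n) ∧ Smooth d (fun n => u n * v n)) ∧
      CoprimeRec d (fun n => (Nat.fib n : ℤ)) ∧ NoConst (fun n => (Nat.fib n : ℤ)) ∧
      Fast (fun n => (Nat.fib n : ℤ)) ∧
      Spread d (1 / 2) (fun (_ : Unit) (n : ℕ) => ((Nat.nth Nat.Prime n : ℕ) : ℤ))) := by
  classical
  have hd0 : 0 < d := by omega
  have hr' : ∀ j : ℤ, 1 ≤ j → j < d → (d : ℤ) ∣ m * j - r j := fun j h1 h2 => (hr j h1 h2).dvd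
  have hsp : ∀ {ι : Type} {c : ℝ} {x : ι → ℕ → ℤ}, Spread d c x ↔ Pool.Agent.U491.LR.Spr d c x :=
    fun {ι c x} => Pool.Agent.U491.LR.spread_iff (x := x) hd0
  have hexc : ∀ (ι : Type) (x : ι → ℕ → ℤ) (c : ℝ), 0 < c → Pool.Agent.U491.LR.Spr d c x →
      ∃ δ K : ℝ, 0 < δ ∧ 0 < K ∧ ∀ (i : ι) (N : ℕ), 1 ≤ N →
        (({n | 1 ≤ n ∧ n ≤ N ∧ x i n ∈ E d m r} : Set ℕ).ncard : ℝ) ≤ K * (N : ℝ) ^ (1 - δ) := by
    intro ι x c hc0 hx
    obtain ⟨δ, K, hδ, hK, h⟩ := Pool.Agent.U491.LR.Mo.exc hd hm hc hle hr' hc0 hx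
    refine ⟨δ, K, hδ, hK, fun i N hN => ?_⟩
    apply ncard_le (P := fun n => x i n ∈ E d m r)
    intro A hA hbad
    exact h i N hN A hA hbad
  refine ⟨fun u hu hne => ⟨?_, fun ι f c hc0 hf => ?_⟩, fun ι x c hc0 hx => ⟨?_, ?_, fun ε hε => ?_⟩,
    fun u hu hfast ε hε => ?_, ?_⟩
  · exact hexc ℕ (fun X n => u (X + n)) 1 one_pos (Pool.Agent.U491.LR.Smooth.window hd hu hne)
  · exact hexc ι (fun i n => u (f i n)) c hc0 (Pool.Agent.U491.LR.Smooth.comp hd hu hne (hsp.1 hf))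
  · exact hexc ι x c hc0 (hsp.1 hx)
  · obtain ⟨c', hc', δ, K, hδ, hK, h⟩ := Pool.Agent.U491.LR.Mo.all_desc hd hm hc hle hr' hc0 (hsp.1 hx)
    refine ⟨c', δ, K, hc', hδ, hK, fun i N hN => ?_⟩
    apply ncard_le (P := fun n => 0 < x i n ∧ ¬ (d : ℤ) ∣ x i n ∧ ¬ Descends d m r ((N : ℝ) ^ (-c')) (x i n))
    intro A hA hbad
    exact h i N hN A hA hbad
  · obtain ⟨δ, K, hδ, hK, h⟩ := Pool.Agent.U491.LR.Mo.large_desc hd hm hc hle hr' hc0 (hsp.1 hx) hε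
    refine ⟨δ, K, hδ, hK, fun i N hN => ?_⟩
    apply ncard_le (P := fun n => 0 < x i n ∧ ¬ (d : ℤ) ∣ x i n ∧
          (N : ℝ) ^ (c * (kappa d m + ε)) ≤ (x i n : ℝ) ∧
          ¬ Descends d m r ((N : ℝ) ^ (c * (ε - kappa d m))) (x i n))
    intro A hA hbad
    exact h i N hN A hA hbad
  · obtain ⟨δ, K, hδ, hK, h⟩ := Pool.Agent.U491.LR.Mo.fast_desc hd hm hc hle hr'
      (Pool.Agent.U491.LR.Smooth.window hd hu (Pool.Agent.U491.LR.Fast.noConst hfast)) hfast hε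
    refine ⟨δ, K, hδ, hK, fun X N hN => ?_⟩
    apply ncard_le (P := fun n => 0 < u (X + n) ∧ ¬ (d : ℤ) ∣ u (X + n) ∧
        ¬ Descends d m r ((N : ℝ) ^ (ε - kappa d m)) (u (X + n)))
    intro A hA hbad
    exact h X N hN A hA hbad
  · exact ⟨fun u hu => Pool.Agent.U491.LR.CoRec.smooth hd hu,
      fun c => Pool.Agent.U491.LR.newton_smooth (by omega) c,
      fun u v hu hv => ⟨Pool.Agent.U491.LR.Smooth.add hu hv, Pool.Agent.U491.LR.Smooth.mul hu hv⟩,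
      Pool.Agent.U491.LR.fib_coRec d, Pool.Agent.U491.LR.fib_fast.noConst, Pool.Agent.U491.LR.fib_fast,
      hsp.2 (Pool.Agent.U491.LR.spr_prime hd)⟩

end Pool.Agent.Results.MP_fd8838_nt.LinearRecurrenceExceptional
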