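import Pool.Agent.U762.EX.Tail

set_option autoImplicit false

/-!
# Möller's conjecture for randomly perturbed maps

Möller's maps: `T(n) = n/d` if `d ∣ n`, `T(n) = (m n - r_j)/d` if `n ≡ j` modulo `d`, `1 ≤ j < d`, where `m` is prime to
`d` and `r_j ≡ m j` modulo `d`.  (The orbit of `n` under the map `H` of the problem consists of the terms of its
`T`-orbit which are not divisible by `d`; the exceptional set consists of the `n > 0`, `d ∤ n`, with `T^k(n) ≥ n` for
all `k`.)  Möller's conjecture: if `m ≤ d^(d/(d-1))`, the exceptional set is finite.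

Here the fixed map `T` is perturbed: `T_ω(n) = T(n) + ω n`, where the `ω n`, `n ∈ ℤ`, are independent, bounded, with one
law, and `ω n = 0` with probability `≥ 1 - ε`, `ε > 0` arbitrarily small (the law has a uniform component of mass
`ε` on `0, …, d^K - 1`).  Under Möller's condition on `m`, almost surely the exceptional set of `T_ω` in `ℤ` is finite;
moreover all but finitely many `n ∈ ℤ` have `|T_ω^k(n)| < |n|` for some `k ≤ c log(2 + |n|)`, and the probability
that such a `k` does not exist for some `|n| ≥ N` is `O(N^(-A))` for every `A` (`c` depends on `A`).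

The same for all generalized 3x+1 maps of relatively prime type with positive multipliers and `∏ m_j < d^d`.

Proof: the annealed chain of project RP has exponentially small probability to stay above `M` for `L` steps; an orbit
which stays above `|n|` and repeats early would contain a cycle with few elements (in comparison with the
logarithm of its smallest element), which is impossible by Ridout's theorem (project CY of helper29).
-/

namespace Pool.Agent.Results.MP_fd8838_nt.PerturbedMapsDescend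

open MeasureTheory Filter Finset

/-- The generalized 3x+1 map: `(m_j x - r_j)/d` for `x ≡ j` modulo `d`. -/
def gen (d : ℕ) (m r : ℤ → ℤ) (x : ℤ) : ℤ := (m (x % d) * x - r (x % d)) / d

/-- Relatively prime type with positive multipliers: `d ≥ 2`, the `m_j` are positive and prime to `d`, and the
divisions are exact. -/
structure Coprime (d : ℕ) (m r : ℤ → ℤ) : Prop where
  two_le : 2 ≤ d
  pos : ∀ j : ℤ, 0 ≤ j → j < d → 0 < m j
  cop : ∀ j : ℤ, 0 ≤ j → j < d → IsCoprime (m j) (d : ℤ)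
  dvd : ∀ j : ℤ, 0 ≤ j → j < d → (d : ℤ) ∣ m j * j - r j

/-- Möller's map: `n/d` if `d` divides `n`, otherwise `(m n - r_j)/d`, `j = n mod d`. -/
def moller (d m : ℕ) (r : ℤ → ℤ) (n : ℤ) : ℤ := if n % d = 0 then n / d else (m * n - r (n % d)) / d

/-- The map `S` perturbed by `ω`. -/
def pert (S ω : ℤ → ℤ) (x : ℤ) : ℤ := S x + ω x

/-- The law of one perturbation is carried by the integers of modulus at most `B`, and has mass at least `ε / d^K`
at each of `0, 1, …, d^K - 1`. -/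
structure Law (d : ℕ) (ε : ℝ) (K B : ℕ) (μ : Measure ℤ) : Prop where
  bdd : μ {u : ℤ | (B : ℤ) < |u|} = 0
  mass : ∀ u : ℤ, 0 ≤ u → u < (d : ℤ) ^ K → ε / (d : ℝ) ^ K ≤ μ.real {u}

/-- The exceptional set of the perturbed map: the integers whose orbit never has a smaller modulus. -/
def Exceptional (S ω : ℤ → ℤ) : Set ℤ := {x | ∀ k : ℕ, |x| ≤ |(pert S ω)^[k] x|}

/-- The orbit of `x` has no smaller modulus within `c log (2 + |x|)` steps. -/
def Late (S ω : ℤ → ℤ) (c : ℝ) (x : ℤ) : Prop :=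
  ∀ k : ℕ, (k : ℝ) ≤ c * Real.log (2 + |(x : ℝ)|) → |x| ≤ |(pert S ω)^[k] x|

/-- The two conclusions, for independent perturbations of law `μ`. -/
def Conclusion (S : ℤ → ℤ) (μ : Measure ℤ) [IsProbabilityMeasure μ] : Prop :=
  (∀ᵐ ω ∂(Measure.infinitePi fun _ : ℤ => μ), (Exceptional S ω).Finite) ∧
  ∀ A : ℝ, 0 < A → ∃ c C : ℝ, 0 < c ∧
    (∀ᵐ ω ∂(Measure.infinitePi fun _ : ℤ => μ), {x : ℤ | Late S ω c x}.Finite) ∧
    ∀ N : ℝ, 1 ≤ N → (Measure.infinitePi fun _ : ℤ => μ) {ω | ∃ x : ℤ, N ≤ |(x : ℝ)| ∧ Late S ω c x} ≤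
      ENNReal.ofReal (C * N ^ (-A))

theorem general (d : ℕ) (m r : ℤ → ℤ) (h : Coprime d m r) (hm : (∏ j ∈ range d, m (j : ℤ)) < (d : ℤ) ^ d)
    (ε : ℝ) (h0 : 0 < ε) (h1 : ε < 1) : ∃ K : ℕ, ∀ (B : ℕ) (μ : Measure ℤ) [IsProbabilityMeasure μ],
      Law d ε K B μ → Conclusion (gen d m r) μ := by
  obtain ⟨K, hK⟩ := Pool.Agent.U762.EX.stops d m r ⟨h.two_le, h.pos, h.cop, h.dvd⟩ hm ε h0 h1
  refine ⟨K, fun B μ hμ hlaw => ?_⟩
  have hst := hK B μ ⟨hlaw.bdd, hlaw.mass⟩
  have he : ∀ (c : ℝ) (x : ℤ) (ω : ℤ → ℤ),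
      Pool.Agent.U762.EX.Stay d m r c x ω ↔ Late (gen d m r) ω c x := by
    intro c x ω
    constructor
    · intro hh k hk
      exact_mod_cast hh k hk
    · intro hh k hk
      have := hh k hk
      exact_mod_cast this
  have hA : ∀ A : ℝ, 0 < A → ∃ c C : ℝ, 0 < c ∧ 0 ≤ C ∧
      ∀ N : ℝ, 1 ≤ N → (Measure.infinitePi fun _ : ℤ => μ) {ω | ∃ x : ℤ, N ≤ |(x : ℝ)| ∧
        Late (gen d m r) ω c x} ≤ ENNReal.ofReal (C * N ^ (-A)) := by
    intro A hA
    obtain ⟨c, C, hc, hC⟩ := hst A hA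
    refine ⟨c, max C 0, hc, le_max_right _ _, fun N hN => ?_⟩
    have h2 := hC N hN
    simp only [he] at h2
    refine h2.trans (ENNReal.ofReal_le_ofReal ?_)
    exact mul_le_mul_of_nonneg_right (le_max_left _ _) (Real.rpow_nonneg (by linarith) _)
  have hfin : ∀ c C : ℝ, (∀ N : ℝ, 1 ≤ N → (Measure.infinitePi fun _ : ℤ => μ) {ω | ∃ x : ℤ, N ≤ |(x : ℝ)| ∧
        Late (gen d m r) ω c x} ≤ ENNReal.ofReal (C * N ^ (-(1 : ℝ)))) →
      ∀ᵐ ω ∂(Measure.infinitePi fun _ : ℤ => μ), {x : ℤ | Late (gen d m r) ω c x}.Finite := by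
    intro c C hC
    have := Pool.Agent.U762.EX.stops_ae d m r μ c C (by simpa only [he] using hC)
    filter_upwards [this] with ω hω
    exact hω.subset fun x hx => (he c x ω).2 hx
  have hA1 : ∀ A : ℝ, 0 < A → ∃ c C : ℝ, 0 < c ∧
    (∀ᵐ ω ∂(Measure.infinitePi fun _ : ℤ => μ), {x : ℤ | Late (gen d m r) ω c x}.Finite) ∧
    ∀ N : ℝ, 1 ≤ N → (Measure.infinitePi fun _ : ℤ => μ) {ω | ∃ x : ℤ, N ≤ |(x : ℝ)| ∧
      Late (gen d m r) ω c x} ≤ ENNReal.ofReal (C * N ^ (-A)) := by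
    intro A hA0
    obtain ⟨c, C, hc, hC0, hC⟩ := hA (max A 1) (lt_of_lt_of_le hA0 (le_max_left _ _))
    refine ⟨c, C, hc, hfin c C fun N hN => (hC N hN).trans (ENNReal.ofReal_le_ofReal ?_), fun N hN =>
      (hC N hN).trans (ENNReal.ofReal_le_ofReal ?_)⟩
    · apply mul_le_mul_of_nonneg_left _ hC0
      exact Real.rpow_le_rpow_of_exponent_le hN (neg_le_neg (le_max_right _ _))
    · apply mul_le_mul_of_nonneg_left _ hC0
      exact Real.rpow_le_rpow_of_exponent_le hN (neg_le_neg (le_max_left _ _))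
  refine ⟨?_, hA1⟩
  obtain ⟨c, C, hc, hf, -⟩ := hA1 1 one_pos
  filter_upwards [hf] with ω hω
  exact hω.subset fun x hx k _ => hx k

/-- Möller's maps (`m ≥ 1` prime to `d`, `r_j ≡ m j` for `1 ≤ j < d`, `m ≤ d^(d/(d-1))`) and all relatively prime
maps with `∏ m_j < d^d`. -/
theorem result :
    (∀ (d m : ℕ) (r : ℤ → ℤ), 2 ≤ d → 1 ≤ m → Nat.Coprime m d →
      (∀ j : ℤ, 1 ≤ j → j < d → (d : ℤ) ∣ m * j - r j) → (m : ℝ) ≤ (d : ℝ) ^ ((d : ℝ) / ((d : ℝ) - 1)) →
      ∀ ε : ℝ, 0 < ε → ε < 1 → ∃ K : ℕ, ∀ (B : ℕ) (μ : Measure ℤ) [IsProbabilityMeasure μ],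
        Law d ε K B μ → Conclusion (moller d m r) μ) ∧
    (∀ (d : ℕ) (m r : ℤ → ℤ), Coprime d m r → (∏ j ∈ range d, m (j : ℤ)) < (d : ℤ) ^ d →
      ∀ ε : ℝ, 0 < ε → ε < 1 → ∃ K : ℕ, ∀ (B : ℕ) (μ : Measure ℤ) [IsProbabilityMeasure μ],
        Law d ε K B μ → Conclusion (gen d m r) μ) := by
  refine ⟨fun d m r hd hm hc hr hle ε h0 h1 => ?_, fun d m r h hp ε h0 h1 => general d m r h hp ε h0 h1⟩
  have hd' : (2 : ℝ) ≤ d := by exact_mod_cast hd
  have hM : Coprime d (fun j => if j = 0 then 1 else m) (fun j => if j = 0 then 0 else r j) := by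
    refine ⟨hd, fun j _ _ => ?_, fun j _ _ => ?_, fun j hj0 hj1 => ?_⟩
    · show (0 : ℤ) < if j = 0 then 1 else (m : ℤ)
      split_ifs
      · exact one_pos
      · exact_mod_cast hm
    · show IsCoprime (if j = 0 then (1 : ℤ) else (m : ℤ)) (d : ℤ)
      split_ifs
      · exact isCoprime_one_left
      · exact Nat.isCoprime_iff_coprime.2 hc
    · show (d : ℤ) ∣ (if j = 0 then (1 : ℤ) else (m : ℤ)) * j - (if j = 0 then 0 else r j)
      split_ifs with hj
      · rw [hj]; simp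
      · exact hr j (by omega) hj1
  have hprod : (∏ j ∈ range d, (fun j : ℤ => if j = 0 then (1 : ℤ) else (m : ℤ)) (j : ℤ)) = (m : ℤ) ^ (d - 1) := by
    obtain ⟨e, rfl⟩ : ∃ e, d = e + 1 := ⟨d - 1, by omega⟩
    rw [prod_range_succ', Nat.add_sub_cancel]
    simp only [Nat.cast_zero, if_true, mul_one]
    rw [prod_congr rfl (g := fun _ => (m : ℤ)) (fun j _ => by
      rw [if_neg]; push_cast; positivity)]
    rw [prod_const, card_range]
  have hlt : (∏ j ∈ range d, (fun j : ℤ => if j = 0 then (1 : ℤ) else (m : ℤ)) (j : ℤ)) < (d : ℤ) ^ d := by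
    refine lt_of_le_of_ne ?_ (Pool.Agent.U29.CY.prod_ne (r := fun j => if j = 0 then 0 else r j)
      ⟨hM.two_le, hM.pos, hM.cop, hM.dvd⟩)
    rw [hprod]
    have h2 : (m : ℝ) ^ (d - 1) ≤ (d : ℝ) ^ d := by
      calc (m : ℝ) ^ (d - 1) ≤ ((d : ℝ) ^ ((d : ℝ) / ((d : ℝ) - 1))) ^ (d - 1) :=
            pow_le_pow_left₀ (by positivity) hle _
        _ = (d : ℝ) ^ d := by
            rw [← Real.rpow_natCast, ← Real.rpow_mul (by positivity)]
            rw [← Real.rpow_natCast (d : ℝ) d]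
            congr 1
            rw [Nat.cast_sub (by omega)]
            have : (d : ℝ) - 1 ≠ 0 := by linarith
            push_cast
            field_simp
    exact_mod_cast h2
  obtain ⟨K, hK⟩ := general d _ _ hM hlt ε h0 h1
  refine ⟨K, fun B μ hμ hlaw => ?_⟩
  have h3 := hK B μ hlaw
  have he : gen d (fun j => if j = 0 then 1 else m) (fun j => if j = 0 then 0 else r j) = moller d m r := by
    funext n
    unfold gen moller
    by_cases hn : n % (d : ℤ) = 0
    · simp [hn]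
    · simp [hn]
  rwa [he] at h3

end Pool.Agent.Results.MP_fd8838_nt.PerturbedMapsDescend
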